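import Pool.Agent.X35.RP.Top

/-!
# MP_199216_nt: sums of boundedly many reversed primes

For every base `b ≥ 2` there are `K` and `N₀` such that every integer `N ≥ N₀` is a sum of at most `K`
reversed primes in base `b`.
-/

set_option autoImplicit false

namespace Pool.Agent.Results.MP_199216_nt.FiniteForEveryBase

/-- the digital reverse of `n` in base `b`: the number whose base `b` digits are those of `n` in the
opposite order -/
def rev (b n : ℕ) : ℕ := Nat.ofDigits b (Nat.digits b n).reverse

/-- every sufficiently large integer is a sum of at most `K` reversed primes in base `b` -/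
theorem result : ∀ b : ℕ, 2 ≤ b → ∃ K N₀ : ℕ, ∀ N : ℕ, N₀ ≤ N →
    ∃ s : Multiset ℕ, Multiset.card s ≤ K ∧ (∀ p ∈ s, Nat.Prime p) ∧ (s.map (rev b)).sum = N := by
  intro b hb
  exact Pool.Agent.X35.RP.main b hb

end Pool.Agent.Results.MP_199216_nt.FiniteForEveryBase
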